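import Pool.Agent.KS6_50.BZ.Expand2

set_option autoImplicit false

/-!
Refined counting of the tilings of the `(n + 2, 2 n + 1)`-benzel with two of the three directions of
bones.
-/

namespace Pool.Agent.KS6_50.BZ

open Finset Pool.Agent.R730.Bz

/-- number of right stones of a tiling -/
noncomputable def rights (M : Finset (Finset Cell)) : ℕ := {τ | τ ∈ M ∧ IsRight τ}.ncard

/-- number of left stones of a tiling -/
noncomputable def lefts (M : Finset (Finset Cell)) : ℕ := {τ | τ ∈ M ∧ IsLeft τ}.ncard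

/-- number of bones of direction `dir t` of a tiling -/
noncomputable def bones (t : Fin 3) (M : Finset (Finset Cell)) : ℕ :=
  {τ | τ ∈ M ∧ IsBone t τ}.ncard

/-- tiles which are stones or bones whose direction is not `dir t₀` -/
def NoBone (t₀ : Fin 3) (τ : Finset Cell) : Prop :=
  IsRight τ ∨ IsLeft τ ∨ ∃ t, t ≠ t₀ ∧ IsBone t τ

/-- number of tiles of a kind, in the internal model -/
def kc (κ : Kd) (M : Finset Tl) : ℕ := (M.filter (fun τ => kd τ.1 = κ)).card

lemma kc_insert (κ : Kd) {τ : Tl} {M : Finset Tl} (h : τ ∉ M) :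
    kc κ (insert τ M) = kc κ M + if kd τ.1 = κ then 1 else 0 := by
  unfold kc
  rw [Finset.filter_insert]
  split_ifs with h1
  · rw [Finset.card_insert_of_notMem (fun h2 => h (Finset.mem_of_mem_filter _ h2))]
  · rfl

lemma ncard_image (m : ℕ) (M : Finset Tl) (κ : Kd) (P : Finset Cell → Prop)
    (hP : ∀ τ : Tl, P (Ph m τ) ↔ kd τ.1 = κ) :
    {σ | σ ∈ M.image (Ph m) ∧ P σ}.ncard = kc κ M := by
  have : {σ | σ ∈ M.image (Ph m) ∧ P σ}
      = ((M.filter (fun τ => kd τ.1 = κ)).image (Ph m) : Finset (Finset Cell)) := by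
    ext σ
    simp only [Set.mem_ofPred_eq, coe_image, Set.mem_image, mem_coe, mem_filter, mem_image]
    constructor
    · rintro ⟨⟨τ, hτ, rfl⟩, h⟩
      exact ⟨τ, ⟨hτ, (hP τ).1 h⟩, rfl⟩
    · rintro ⟨τ, ⟨hτ, h⟩, rfl⟩
      exact ⟨⟨τ, hτ, rfl⟩, (hP τ).2 h⟩
  rw [this, Set.ncard_coe_finset, Finset.card_image_of_injective _ (fun _ _ h => Ph_inj h)]
  rfl

lemma rights_image (m : ℕ) (M : Finset Tl) : rights (M.image (Ph m)) = kc Kd.r M :=
  ncard_image m M Kd.r IsRight (fun _ => right_Ph)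

lemma lefts_image (m : ℕ) (M : Finset Tl) : lefts (M.image (Ph m)) = kc Kd.l M :=
  ncard_image m M Kd.l IsLeft (fun _ => left_Ph)

lemma bones_image (m : ℕ) (M : Finset Tl) (t : Fin 3) :
    bones t (M.image (Ph m)) = kc (Kd.b t) M :=
  ncard_image m M (Kd.b t) (IsBone t) (fun _ => bone_Ph)

lemma prod_Wt {K : Type*} [CommRing K] (x : Fin 3 → K) (w : K) (M : Finset Tl) :
    ∏ τ ∈ M, Wt x w τ.1 = w ^ kc Kd.l M * (x 0 ^ kc (Kd.b 0) M * x 1 ^ kc (Kd.b 1) M
      * x 2 ^ kc (Kd.b 2) M) := by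
  classical
  induction M using Finset.induction_on with
  | empty => simp [kc]
  | insert τ M h ih =>
    rw [Finset.prod_insert h, ih, Wt_kd, kc_insert _ h, kc_insert _ h, kc_insert _ h,
      kc_insert _ h]
    rcases hk : kd τ.1 with _ | _ | t
    · simp [kw]
    · simp [kw]; ring
    · fin_cases t <;> simp [kw] <;> ring

lemma card_kc (M : Finset Tl) : kc Kd.r M + kc Kd.l M + kc (Kd.b 0) M + kc (Kd.b 1) M
    + kc (Kd.b 2) M = M.card := by
  classical
  induction M using Finset.induction_on with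
  | empty => simp [kc]
  | insert τ M h ih =>
    rw [Finset.card_insert_of_notMem h, kc_insert _ h, kc_insert _ h, kc_insert _ h,
      kc_insert _ h, kc_insert _ h, ← ih]
    rcases hk : kd τ.1 with _ | _ | t
    · simp; ring
    · simp; ring
    · fin_cases t <;> simp <;> ring

/-- exponents -/
noncomputable def E (a b c : ℕ) : Fin 3 →₀ ℕ :=
  Finsupp.single 0 a + Finsupp.single 1 b + Finsupp.single 2 c

lemma E_inj {a b c a' b' c' : ℕ} : E a b c = E a' b' c' ↔ a = a' ∧ b = b' ∧ c = c' := by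
  constructor
  · intro h
    have h0 := DFunLike.congr_fun h 0
    have h1 := DFunLike.congr_fun h 1
    have h2 := DFunLike.congr_fun h 2
    simp [E] at h0 h1 h2
    exact ⟨h0, h1, h2⟩
  · rintro ⟨rfl, rfl, rfl⟩
    rfl

lemma mon_eq (a b c : ℕ) :
    (MvPolynomial.X 0 ^ a * MvPolynomial.X 1 ^ b * MvPolynomial.X 2 ^ c : MvPolynomial (Fin 3) ℚ)
      = MvPolynomial.monomial (E a b c) 1 := by
  rw [MvPolynomial.X_pow_eq_monomial, MvPolynomial.X_pow_eq_monomial,
    MvPolynomial.X_pow_eq_monomial, MvPolynomial.monomial_mul, MvPolynomial.monomial_mul]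
  simp [E]

lemma coeff_mon (a b c a' b' c' : ℕ) :
    MvPolynomial.coeff (E a b c)
      (MvPolynomial.X 0 ^ a' * MvPolynomial.X 1 ^ b' * MvPolynomial.X 2 ^ c' :
        MvPolynomial (Fin 3) ℚ) = if a' = a ∧ b' = b ∧ c' = c then 1 else 0 := by
  rw [mon_eq, MvPolynomial.coeff_monomial]
  by_cases h : a' = a ∧ b' = b ∧ c' = c
  · rw [if_pos h, if_pos (E_inj.2 h)]
  · rw [if_neg h, if_neg (fun e => h (E_inj.1 e))]

/-- the weights of the bones -/
noncomputable def xx (t₀ : Fin 3) : Fin 3 → MvPolynomial (Fin 3) ℚ :=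
  fun t => if t = t₀ then 0 else if t = t₀ + 1 then MvPolynomial.X 1 else MvPolynomial.X 2

lemma prod_xx (t₀ : Fin 3) (M : Finset Tl) :
    ∏ τ ∈ M, Wt (xx t₀) (MvPolynomial.X 0) τ.1
      = if kc (Kd.b t₀) M = 0 then MvPolynomial.X 0 ^ kc Kd.l M
        * MvPolynomial.X 1 ^ kc (Kd.b (t₀ + 1)) M * MvPolynomial.X 2 ^ kc (Kd.b (t₀ + 2)) M
        else 0 := by
  rw [prod_Wt]
  by_cases h : kc (Kd.b t₀) M = 0
  · rw [if_pos h]
    fin_cases t₀
    · simp only [xx] at h ⊢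
      simp at h ⊢
      rw [h]; ring
    · simp only [xx] at h ⊢
      simp at h ⊢
      rw [h]; ring
    · simp only [xx] at h ⊢
      simp at h ⊢
      rw [h]; ring
  · rw [if_neg h]
    fin_cases t₀
    · simp only [xx] at h ⊢
      simp at h ⊢
      simp [h]
    · simp only [xx] at h ⊢
      simp at h ⊢
      simp [h]
    · simp only [xx] at h ⊢
      simp at h ⊢
      simp [h]

lemma INs_xx (t₀ : Fin 3) (w : MvPolynomial (Fin 3) ℚ) (n : ℕ) :
    INs (xx t₀ 0) (xx t₀ 1) (xx t₀ 2) w n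
      = INs (MvPolynomial.X 1) (MvPolynomial.X 2) 0 w n := by
  fin_cases t₀
  · simp [xx]
    rw [INs_rot]
  · simp [xx]
    rw [INs_rot, INs_rot]
  · simp [xx]

open Classical in
theorem coeff_eq (t₀ : Fin 3) {n : ℕ} (hn : 1 ≤ n) (a b c : ℕ) :
    (((tilings (Din n)).filter (fun M => kc (Kd.b t₀) M = 0 ∧ kc Kd.l M = a ∧
      kc (Kd.b (t₀ + 1)) M = b ∧ kc (Kd.b (t₀ + 2)) M = c)).card : ℚ)
    = ∑ q ∈ HasAntidiagonal.antidiagonal n, ∑ p ∈ HasAntidiagonal.antidiagonal q.1,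
      if q.2 + p.1 = a ∧ p.1 + p.2 = b ∧ 2 * p.2 + q.2 = c then NN q.2 p.1 p.2 else 0 := by
  have h := Z_in' hn (xx t₀) (MvPolynomial.X 0)
  rw [INs_xx, INs_zero_exp] at h
  unfold Z at h
  have h2 := congrArg (MvPolynomial.coeff (E a b c)) h
  rw [MvPolynomial.coeff_sum, MvPolynomial.coeff_sum] at h2
  have e1 : ∀ M ∈ tilings (Din n), MvPolynomial.coeff (E a b c)
      (∏ τ ∈ M, Wt (xx t₀) (MvPolynomial.X 0) τ.1)
      = if kc (Kd.b t₀) M = 0 ∧ kc Kd.l M = a ∧
        kc (Kd.b (t₀ + 1)) M = b ∧ kc (Kd.b (t₀ + 2)) M = c then 1 else 0 := by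
    intro M _
    rw [prod_xx]
    by_cases h0 : kc (Kd.b t₀) M = 0
    · rw [if_pos h0, coeff_mon]
      simp [h0]
    · rw [if_neg h0]
      simp [h0]
  rw [Finset.sum_congr rfl e1, ← Finset.sum_filter, Finset.sum_const, nsmul_eq_mul, mul_one] at h2
  rw [h2]
  apply Finset.sum_congr rfl
  intro q _
  rw [MvPolynomial.coeff_sum]
  apply Finset.sum_congr rfl
  intro p _
  rw [MvPolynomial.coeff_smul, coeff_mon, smul_eq_mul, mul_ite, mul_one, mul_zero]

end Pool.Agent.KS6_50.BZ
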