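import Pool.Graph.R_seed8.R730.Bz.MainC

set_option autoImplicit false

/-!
Explicit expansion of the weighted left factors of Schroeder paths and of the inward sum with one
of the three bone weights equal to `0`.
-/

namespace Pool.Agent.KS6_50.BZ

open Finset Nat Pool.Agent.R730.Bz

/-- `rr j d b = (2 d + b + j)! (b + 1) / (j! d! (d + b + 1)!)` -/
noncomputable def rr (j d b : ℕ) : ℚ :=
  ((2 * d + b + j)! : ℚ) * (b + 1) / ((j ! : ℚ) * (d ! : ℚ) * ((d + b + 1)! : ℚ))

/-- `rr` with second index lowered by one -/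
noncomputable def rd (j : ℕ) : ℕ → ℕ → ℚ
  | 0, _ => 0
  | d + 1, b => rr j d b

/-- `rr` with first index lowered by one -/
noncomputable def rj : ℕ → ℕ → ℕ → ℚ
  | 0, _, _ => 0
  | j + 1, d, b => rr j d b

lemma fne (n : ℕ) : (n ! : ℚ) ≠ 0 := by exact_mod_cast Nat.factorial_ne_zero n

lemma fs (n : ℕ) : ((n + 1)! : ℚ) = (n + 1) * (n ! : ℚ) := by
  rw [Nat.factorial_succ]; push_cast; ring

lemma rr_zero (b : ℕ) : rr 0 0 b = 1 := by
  unfold rr
  have h := fne b
  have h2 : (b : ℚ) + 1 ≠ 0 := by positivity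
  rw [show 2 * 0 + b + 0 = b by ring, show 0 + b + 1 = b + 1 by ring, fs]
  simp
  field_simp

lemma rr_mul (j d b : ℕ) : rr j d b * ((j ! : ℚ) * (d ! : ℚ) * ((d + b + 1)! : ℚ))
    = ((2 * d + b + j)! : ℚ) * (b + 1) := by
  unfold rr
  have h1 := fne j
  have h2 := fne d
  have h3 := fne (d + b + 1)
  field_simp

lemma rd_mul (j d b : ℕ) : rd j d b * ((j ! : ℚ) * (d ! : ℚ) * ((d + b)! : ℚ)) *
    (((2 * d + b + j : ℕ) : ℚ) * ((2 * d + b + j : ℕ) - 1))
    = (d : ℚ) * ((2 * d + b + j)! : ℚ) * (b + 1) := by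
  rcases d with _ | d
  · simp [rd]
  · show rr j d b * _ * _ = _
    have h := rr_mul j d b
    have e1 : ((2 * (d + 1) + b + j)! : ℚ)
        = ((2 * (d + 1) + b + j : ℕ) : ℚ) * ((2 * (d + 1) + b + j : ℕ) - 1) * ((2 * d + b + j)! : ℚ) := by
      rw [show 2 * (d + 1) + b + j = (2 * d + b + j) + 1 + 1 by ring, fs (2 * d + b + j + 1),
        fs (2 * d + b + j)]
      push_cast
      ring
    rw [e1, fs d, show d + 1 + b = d + b + 1 by ring]
    push_cast
    linear_combination ((d : ℚ) + 1) * (((2 * (d + 1) + b + j : ℚ)) * ((2 * (d + 1) + b + j) - 1)) * h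

lemma rj_mul (j d b : ℕ) : rj j d b * ((j ! : ℚ) * (d ! : ℚ) * ((d + b + 1)! : ℚ)) *
    ((2 * d + b + j : ℕ) : ℚ)
    = (j : ℚ) * ((2 * d + b + j)! : ℚ) * (b + 1) := by
  rcases j with _ | j
  · simp [rj]
  · show rr j d b * _ * _ = _
    have h := rr_mul j d b
    have e1 : ((2 * d + b + (j + 1))! : ℚ)
        = ((2 * d + b + (j + 1) : ℕ) : ℚ) * ((2 * d + b + j)! : ℚ) := by
      rw [show 2 * d + b + (j + 1) = (2 * d + b + j) + 1 by ring, fs (2 * d + b + j)]
      push_cast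
      ring
    rw [e1, fs j]
    push_cast
    linear_combination ((j : ℚ) + 1) * ((2 * d + b + (j + 1) : ℚ)) * h

/-- recursion at positive height -/
lemma rr_succ (j d b : ℕ) : rr j d (b + 1) = rr j d b + rd j d (b + 2) + rj j d (b + 1) := by
  have h1 := fne j
  have h2 := fne d
  have h3 := fne (d + b + 1)
  have e0 := rr_mul j d (b + 1)
  have e1 := rr_mul j d b
  have e2 := rd_mul j d (b + 2)
  have e3 := rj_mul j d (b + 1)
  have g1 : ((2 * d + (b + 1) + j)! : ℚ) = (2 * (d : ℚ) + b + j + 1) * ((2 * d + b + j)! : ℚ) := by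
    rw [show 2 * d + (b + 1) + j = (2 * d + b + j) + 1 by ring, fs (2 * d + b + j)]; push_cast; ring
  have g2 : ((2 * d + (b + 2) + j)! : ℚ)
      = (2 * (d : ℚ) + b + j + 1 + 1) * ((2 * (d : ℚ) + b + j + 1) * ((2 * d + b + j)! : ℚ)) := by
    rw [show 2 * d + (b + 2) + j = (2 * d + b + j) + 1 + 1 by ring, fs (2 * d + b + j + 1),
      fs (2 * d + b + j)]; push_cast; ring
  have g3 : ((d + (b + 1) + 1)! : ℚ) = ((d : ℚ) + b + 1 + 1) * ((d + b + 1)! : ℚ) := by
    rw [show d + (b + 1) + 1 = (d + b + 1) + 1 by ring, fs (d + b + 1)]; push_cast; ring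
  have g4 : ((d + (b + 2))! : ℚ) = ((d : ℚ) + b + 1 + 1) * ((d + b + 1)! : ℚ) := by
    rw [show d + (b + 2) = (d + b + 1) + 1 by ring, fs (d + b + 1)]; push_cast; ring
  rw [g1, g3] at e0 e3
  rw [g2, g4] at e2
  generalize ((2 * d + b + j)! : ℚ) = F at *
  generalize ((d + b + 1)! : ℚ) = G at *
  generalize (j ! : ℚ) = J at *
  generalize (d ! : ℚ) = D at *
  push_cast at e0 e1 e2 e3
  have hA : ((d : ℚ) + b + 1 + 1) ≠ 0 := by positivity
  have hB : (2 * (d : ℚ) + b + j + 1) ≠ 0 := by positivity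
  have hC : (2 * (d : ℚ) + b + j + 1 + 1) ≠ 0 := by positivity
  have f2 : rd j d (b + 2) * (J * D * (((d : ℚ) + b + 1 + 1) * G)) = d * F * (b + 3) := by
    have : (rd j d (b + 2) * (J * D * (((d : ℚ) + b + 1 + 1) * G)))
        * ((2 * (d : ℚ) + b + j + 1 + 1) * (2 * (d : ℚ) + b + j + 1)) = (d * F * (b + 3))
        * ((2 * (d : ℚ) + b + j + 1 + 1) * (2 * (d : ℚ) + b + j + 1)) := by
      linear_combination e2
    exact mul_right_cancel₀ (mul_ne_zero hC hB) this
  have f3 : rj j d (b + 1) * (J * D * (((d : ℚ) + b + 1 + 1) * G)) = j * F * (b + 2) := by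
    have : (rj j d (b + 1) * (J * D * (((d : ℚ) + b + 1 + 1) * G)))
        * (2 * (d : ℚ) + b + j + 1) = (j * F * (b + 2)) * (2 * (d : ℚ) + b + j + 1) := by
      linear_combination e3
    exact mul_right_cancel₀ hB this
  have hne : J * D * (((d : ℚ) + b + 1 + 1) * G) ≠ 0 := by positivity
  apply mul_right_cancel₀ hne
  linear_combination e0 - ((d : ℚ) + b + 1 + 1) * e1 - f2 - f3

/-- recursion at height `0` -/
lemma rr_base (j d : ℕ) (h : j + d ≠ 0) : rr j d 0 = rd j d 1 + rj j d 0 := by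
  have h1 := fne j
  have h2 := fne d
  have h3 := fne d
  have e1 := rr_mul j d 0
  have e2 := rd_mul j d 1
  have e3 := rj_mul j d 0
  have g1 : ((2 * d + 1 + j)! : ℚ) = (2 * (d : ℚ) + j + 1) * ((2 * d + j)! : ℚ) := by
    rw [show 2 * d + 1 + j = (2 * d + j) + 1 by ring, fs (2 * d + j)]; push_cast; ring
  rw [show 2 * d + 0 + j = 2 * d + j by ring, show d + 0 + 1 = d + 1 by ring] at e1 e3
  rw [g1] at e2
  generalize ((2 * d + j)! : ℚ) = F at *
  have hG := fne (d + 1)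
  generalize ((d + 1)! : ℚ) = G at *
  generalize (j ! : ℚ) = J at *
  generalize (d ! : ℚ) = D at *
  push_cast at e1 e2 e3
  have hp : (0 : ℚ) < (j : ℚ) + d := by
    have : 0 < j + d := Nat.pos_of_ne_zero h
    exact_mod_cast this
  have hB : (2 * (d : ℚ) + j) ≠ 0 := by
    have : (0 : ℚ) ≤ d := by positivity
    intro e; linarith
  have hC : (2 * (d : ℚ) + j + 1) ≠ 0 := by positivity
  have f2 : rd j d 1 * (J * D * G) = d * F * 2 / (2 * (d : ℚ) + j) := by
    rw [eq_div_iff hB]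
    apply mul_right_cancel₀ hC
    linear_combination e2
  have f3 : rj j d 0 * (J * D * G) = j * F / (2 * (d : ℚ) + j) := by
    rw [eq_div_iff hB]
    linear_combination e3
  have hne : J * D * G ≠ 0 := by positivity
  apply mul_right_cancel₀ hne
  rw [add_mul, f2, f3, e1, ← add_div, eq_div_iff hB]
  ring

end Pool.Agent.KS6_50.BZ
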