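import Pool.Agent.KS6_50.BZ.Expand

set_option autoImplicit false

/-!
Explicit expansion of the weighted left factors of Schroeder paths and of the inward sum with one
of the three bone weights equal to `0`, part 2.
-/

namespace Pool.Agent.KS6_50.BZ

open Finset Nat Pool.Agent.R730.Bz

variable {K : Type*} [CommRing K] [Algebra ℚ K]

lemma sum_rd (x w : K) (a u e : ℕ) :
    ∑ p ∈ antidiagonal (a + 1), rd p.1 p.2 u • (x ^ (2 * p.2 + e) * w ^ p.1)
      = ∑ p ∈ antidiagonal a, rr p.1 p.2 u • (x ^ (2 * p.2 + e + 2) * w ^ p.1) := by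
  rw [Finset.Nat.sum_antidiagonal_succ']
  simp only [rd, zero_smul, zero_add]
  apply Finset.sum_congr rfl
  intro p _
  rw [show 2 * (p.2 + 1) + e = 2 * p.2 + e + 2 by ring]

lemma sum_rj (x w : K) (a u e : ℕ) :
    ∑ p ∈ antidiagonal (a + 1), rj p.1 p.2 u • (x ^ (2 * p.2 + e) * w ^ p.1)
      = ∑ p ∈ antidiagonal a, rr p.1 p.2 u • (x ^ (2 * p.2 + e) * w ^ (p.1 + 1)) := by
  rw [Finset.Nat.sum_antidiagonal_succ]
  simp only [rj, zero_smul, zero_add]

lemma R_exp (x w : K) (a : ℕ) : ∀ b,
    R x w a b = ∑ p ∈ antidiagonal a, rr p.1 p.2 b • (x ^ (2 * p.2 + b) * w ^ p.1) := by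
  induction a with
  | zero =>
    intro b
    rw [R]
    simp [rr_zero]
  | succ a ih =>
    intro b
    induction b with
    | zero =>
      have key : ∑ p ∈ antidiagonal (a + 1), rr p.1 p.2 0 • (x ^ (2 * p.2 + 0) * w ^ p.1)
          = ∑ p ∈ antidiagonal (a + 1), (rd p.1 p.2 1 • (x ^ (2 * p.2 + 0) * w ^ p.1)
            + rj p.1 p.2 0 • (x ^ (2 * p.2 + 0) * w ^ p.1)) := by
        apply Finset.sum_congr rfl
        intro p hp
        rw [Finset.HasAntidiagonal.mem_antidiagonal] at hp
        rw [← add_smul, rr_base _ _ (by omega)]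
      rw [R, ih, ih, key, Finset.sum_add_distrib, sum_rd, sum_rj, Finset.mul_sum, Finset.mul_sum]
      congr 1
      · apply Finset.sum_congr rfl
        intro p _
        rw [mul_smul_comm]
        congr 1
        ring
      · apply Finset.sum_congr rfl
        intro p _
        rw [mul_smul_comm]
        congr 1
        ring
    | succ b ihb =>
      have key : ∑ p ∈ antidiagonal (a + 1), rr p.1 p.2 (b + 1) • (x ^ (2 * p.2 + (b + 1)) * w ^ p.1)
          = ∑ p ∈ antidiagonal (a + 1), (rr p.1 p.2 b • (x ^ (2 * p.2 + (b + 1)) * w ^ p.1)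
            + rd p.1 p.2 (b + 2) • (x ^ (2 * p.2 + (b + 1)) * w ^ p.1)
            + rj p.1 p.2 (b + 1) • (x ^ (2 * p.2 + (b + 1)) * w ^ p.1)) := by
        apply Finset.sum_congr rfl
        intro p _
        rw [← add_smul, ← add_smul, rr_succ]
      rw [R, ih, ih, ihb, key, Finset.sum_add_distrib, Finset.sum_add_distrib, sum_rd, sum_rj,
        Finset.mul_sum, Finset.mul_sum, Finset.mul_sum]
      congr 1
      · congr 1
        · apply Finset.sum_congr rfl
          intro p _
          rw [mul_smul_comm]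
          congr 1
          ring
        · apply Finset.sum_congr rfl
          intro p _
          rw [mul_smul_comm]
          congr 1
          ring
      · apply Finset.sum_congr rfl
        intro p _
        rw [mul_smul_comm]
        congr 1
        ring

/-- the refined numbers -/
noncomputable def NN (c j d : ℕ) : ℚ := rr j d c - rd j d (c + 1)

lemma Q_exp (x w : K) (a c : ℕ) : R x w a c - x * Rm x w a (c + 1)
    = ∑ p ∈ antidiagonal a, NN c p.1 p.2 • (x ^ (2 * p.2 + c) * w ^ p.1) := by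
  unfold NN
  simp only [sub_smul]
  rw [Finset.sum_sub_distrib, ← R_exp]
  congr 1
  rcases a with _ | a
  · simp [Rm, rd]
  · rw [sum_rd]
    show x * R x w a (c + 1) = _
    rw [R_exp, Finset.mul_sum]
    apply Finset.sum_congr rfl
    intro p _
    rw [mul_smul_comm]
    congr 1
    ring

omit [Algebra ℚ K] in
lemma R_zero_left' (w : K) (a : ℕ) : ∀ b, R (0 : K) w a b = if b = 0 then w ^ a else 0 := by
  induction a with
  | zero =>
    intro b
    rw [R]
    rcases b with _ | b
    · simp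
    · simp
  | succ a ih =>
    intro b
    induction b with
    | zero => rw [R, ih, ih]; simp; ring
    | succ b ihb => rw [R, ih, ih]; simp

omit [Algebra ℚ K] in
lemma TS_left' (n : ℕ) (f : ℕ → ℕ → ℕ → K)
    (h : ∀ a b c, a + b + c = n → a ≠ 0 → f a b c = 0) :
    TS n f = ∑ q ∈ Finset.HasAntidiagonal.antidiagonal n, f 0 q.1 q.2 := by
  unfold TS
  rw [Finset.sum_eq_single (0, n)]
  · rintro ⟨a, d⟩ h1 h2
    rw [Finset.HasAntidiagonal.mem_antidiagonal] at h1
    simp only at h1
    apply Finset.sum_eq_zero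
    rintro ⟨b, c⟩ h3
    rw [Finset.HasAntidiagonal.mem_antidiagonal] at h3
    simp only at h3
    apply h
    · simp only; omega
    · intro h4
      simp only at h4
      apply h2
      rw [Prod.mk.injEq]
      omega
  · intro h1
    exact absurd (Finset.HasAntidiagonal.mem_antidiagonal.2 (by simp)) h1

omit [Algebra ℚ K] in
lemma Rm_zero_left' (w : K) (c a : ℕ) (h : a ≠ 0) : Rm (0 : K) w c a = 0 := by
  rcases c with _ | c
  · rfl
  · show R (0 : K) w c a = 0
    rw [R_zero_left', if_neg h]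

omit [Algebra ℚ K] in
/-- the inward sum with third bone weight `0` -/
theorem INs_zero (x₁ x₂ w : K) (n : ℕ) : INs x₁ x₂ 0 w n
    = ∑ q ∈ antidiagonal n, x₁ ^ q.1 * w ^ q.2 * (R x₂ w q.1 q.2 - x₂ * Rm x₂ w q.1 (q.2 + 1)) := by
  rw [INs_eq]
  simp only [mul_zero, zero_mul, sub_zero]
  rw [TS_left' n (fun a b c => R x₁ w a b * R x₂ w b c * R 0 w c a),
    TS_left' n (fun a b c => R x₁ w a b * R x₂ w b c * Rm 0 w c a)]
  · simp only [mul_sub]
    rw [Finset.sum_sub_distrib]
    congr 1
    · apply Finset.sum_congr rfl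
      intro q _
      rw [R_zero_left', if_pos rfl, R]
      ring
    · rcases n with _ | n
      · simp [Rm]
      · rw [Finset.Nat.sum_antidiagonal_succ', Finset.Nat.sum_antidiagonal_succ]
        simp only [Rm, mul_zero, zero_add]
        rw [Finset.mul_sum]
        apply Finset.sum_congr rfl
        intro q _
        rw [R_zero_left', if_pos rfl, R]
        ring
  · intro a b c _ h
    rw [Rm_zero_left' _ _ _ h]; ring
  · intro a b c _ h
    rw [R_zero_left', if_neg h]; ring

theorem INs_zero_exp (x₁ x₂ w : K) (n : ℕ) : INs x₁ x₂ 0 w n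
    = ∑ q ∈ antidiagonal n, ∑ p ∈ antidiagonal q.1,
      NN q.2 p.1 p.2 • (w ^ (q.2 + p.1) * x₁ ^ (p.1 + p.2) * x₂ ^ (2 * p.2 + q.2)) := by
  rw [INs_zero]
  apply Finset.sum_congr rfl
  intro q _
  rw [Q_exp, Finset.mul_sum]
  apply Finset.sum_congr rfl
  intro p hp
  rw [Finset.HasAntidiagonal.mem_antidiagonal] at hp
  rw [mul_smul_comm, ← hp]
  congr 1
  ring

/-- the closed form of the refined numbers -/
theorem NN_closed (c j d n : ℕ) (h : c + j + d = n) (hn : 1 ≤ n) :
    NN c j d * ((j ! : ℚ) * (d ! : ℚ) * ((c + d + 1)! : ℚ))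
      = ((2 * d + c + j - 1)! : ℚ) * ((c * (c + d + 1) + (c + 1) * j : ℕ) : ℚ) := by
  have h1 := fne j
  have h2 := fne d
  have e1 := rr_mul j d c
  have e2 := rd_mul j d (c + 1)
  obtain ⟨k, hk⟩ : ∃ k, 2 * d + c + j = k + 1 := ⟨2 * d + c + j - 1, by omega⟩
  have hk' : (k : ℚ) = 2 * d + c + j - 1 := by
    have : ((2 * d + c + j : ℕ) : ℚ) = ((k + 1 : ℕ) : ℚ) := by rw [hk]
    push_cast at this
    linarith
  rw [show 2 * d + (c + 1) + j = k + 1 + 1 by omega, fs (k + 1), fs k,
    show d + (c + 1) = c + d + 1 by ring] at e2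
  rw [hk, fs k, show d + c + 1 = c + d + 1 by ring] at e1
  rw [hk, show k + 1 - 1 = k by omega]
  unfold NN
  have hB : ((k : ℚ) + 1) ≠ 0 := by positivity
  have hC : ((k : ℚ) + 1 + 1) ≠ 0 := by positivity
  push_cast at e1 e2 ⊢
  generalize (k ! : ℚ) = F at *
  generalize ((c + d + 1)! : ℚ) = G at *
  generalize (j ! : ℚ) = J at *
  generalize (d ! : ℚ) = D at *
  have f2 : rd j d (c + 1) * (J * D * G) = d * F * (c + 1 + 1) := by
    apply mul_right_cancel₀ (mul_ne_zero hC hB)
    linear_combination e2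
  rw [sub_mul, e1, f2, hk']
  ring

end Pool.Agent.KS6_50.BZ
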