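import Pool.Agent.KS6_50.BZ.Count

set_option autoImplicit false

/-!
The refined count of the tilings of the `(n + 2, 2 n + 1)`-benzel.
-/

namespace Pool.Agent.KS6_50.BZ

open Finset Nat Pool.Agent.R730.Bz

lemma noBone_Ph {m : ℕ} {τ : Tl} {t₀ : Fin 3} : NoBone t₀ (Ph m τ) ↔ kd τ.1 ≠ Kd.b t₀ := by
  unfold NoBone
  simp only [right_Ph, left_Ph, bone_Ph]
  rcases hk : kd τ.1 with _ | _ | t <;> simp

lemma forall_noBone {m : ℕ} {M : Finset Tl} {t₀ : Fin 3} :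
    (∀ τ ∈ M, NoBone t₀ (Ph m τ)) ↔ kc (Kd.b t₀) M = 0 := by
  unfold kc
  rw [Finset.card_eq_zero, Finset.filter_eq_empty_iff]
  simp only [noBone_Ph]

lemma noBone_any {t₀ : Fin 3} (σ : Finset Cell) (h : NoBone t₀ σ) : AnyTile σ := by
  rcases h with h | h | ⟨t, -, h⟩
  · exact Or.inl h
  · exact Or.inr (Or.inl h)
  · exact Or.inr (Or.inr ⟨t, h⟩)

open Classical in
lemma ncard_eq (t₀ : Fin 3) (n a b c : ℕ) :
    {M | IsTiling (NoBone t₀) (benzel ((n : ℤ) + 2) (2 * n + 1)) M ∧ lefts M = a ∧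
      bones (t₀ + 1) M = b ∧ bones (t₀ + 2) M = c}.ncard
    = ((tilings (Din n)).filter (fun M => kc (Kd.b t₀) M = 0 ∧ kc Kd.l M = a ∧
      kc (Kd.b (t₀ + 1)) M = b ∧ kc (Kd.b (t₀ + 2)) M = c)).card := by
  have h := bij (desc_in n) (NoBone t₀) noBone_any
  have e : {M | IsTiling (NoBone t₀) (benzel ((n : ℤ) + 2) (2 * n + 1)) M ∧ lefts M = a ∧
      bones (t₀ + 1) M = b ∧ bones (t₀ + 2) M = c}
      = (((tilings (Din n)).filter (fun M => kc (Kd.b t₀) M = 0 ∧ kc Kd.l M = a ∧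
      kc (Kd.b (t₀ + 1)) M = b ∧ kc (Kd.b (t₀ + 2)) M = c)).image (fun M => M.image (Ph n)) :
        Finset (Finset (Finset Cell))) := by
    ext M'
    simp only [Set.mem_ofPred_eq, coe_image, Set.mem_image, mem_coe, mem_filter, mem_tilings]
    constructor
    · rintro ⟨h1, h2, h3, h4⟩
      obtain ⟨M, ⟨hM, hP⟩, rfl⟩ := h.surjOn h1
      rw [lefts_image] at h2
      rw [bones_image] at h3 h4
      exact ⟨M, ⟨hM, forall_noBone.1 hP, h2, h3, h4⟩, rfl⟩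
    · rintro ⟨M, ⟨hM, h0, h2, h3, h4⟩, rfl⟩
      refine ⟨h.mapsTo ⟨hM, forall_noBone.2 h0⟩, ?_, ?_, ?_⟩
      · rw [lefts_image]; exact h2
      · rw [bones_image]; exact h3
      · rw [bones_image]; exact h4
  rw [e, Set.ncard_coe_finset, Finset.card_image_of_injective]
  exact Finset.image_injective (fun _ _ h => Ph_inj h)

/-- the possible numbers of tiles -/
theorem types (t₀ : Fin 3) {n : ℕ} (hn : 1 ≤ n) {M' : Finset (Finset Cell)}
    (h : IsTiling (NoBone t₀) (benzel ((n : ℤ) + 2) (2 * n + 1)) M') :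
    ∃ c j d : ℕ, c + j + d = n ∧ lefts M' = c + j ∧ bones (t₀ + 1) M' = j + d ∧
      bones (t₀ + 2) M' = 2 * d + c ∧ bones t₀ M' = 0 ∧
      2 * rights M' + 3 * n = n ^ 2 + 2 * (c + j) := by
  classical
  obtain ⟨M, ⟨hM, hP⟩, rfl⟩ := (bij (desc_in n) (NoBone t₀) noBone_any).surjOn h
  rw [forall_noBone] at hP
  show ∃ c j d : ℕ, c + j + d = n ∧ lefts (M.image (Ph n)) = c + j ∧
      bones (t₀ + 1) (M.image (Ph n)) = j + d ∧
      bones (t₀ + 2) (M.image (Ph n)) = 2 * d + c ∧ bones t₀ (M.image (Ph n)) = 0 ∧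
      2 * rights (M.image (Ph n)) + 3 * n = n ^ 2 + 2 * (c + j)
  rw [lefts_image, bones_image, bones_image, bones_image, rights_image]
  have h1 := coeff_eq t₀ hn (kc Kd.l M) (kc (Kd.b (t₀ + 1)) M) (kc (Kd.b (t₀ + 2)) M)
  have h2 : (((tilings (Din n)).filter (fun M_1 => kc (Kd.b t₀) M_1 = 0 ∧ kc Kd.l M_1 = kc Kd.l M ∧
      kc (Kd.b (t₀ + 1)) M_1 = kc (Kd.b (t₀ + 1)) M ∧
      kc (Kd.b (t₀ + 2)) M_1 = kc (Kd.b (t₀ + 2)) M)).card : ℚ) ≠ 0 := by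
    rw [Nat.cast_ne_zero]
    apply Finset.card_ne_zero_of_mem (a := M)
    rw [mem_filter, mem_tilings]
    exact ⟨hM, hP, rfl, rfl, rfl⟩
  rw [h1] at h2
  obtain ⟨q, hq, h3⟩ := Finset.exists_ne_zero_of_sum_ne_zero h2
  obtain ⟨p, hp, h4⟩ := Finset.exists_ne_zero_of_sum_ne_zero h3
  rw [Finset.HasAntidiagonal.mem_antidiagonal] at hq hp
  have h5 : q.2 + p.1 = kc Kd.l M ∧ p.1 + p.2 = kc (Kd.b (t₀ + 1)) M ∧
      2 * p.2 + q.2 = kc (Kd.b (t₀ + 2)) M := by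
    by_contra hne
    rw [if_neg hne] at h4
    exact h4 rfl
  obtain ⟨h5, h6, h7⟩ := h5
  have h8 := card_kc M
  rw [hM.card 0] at h8
  have h9 := card_Din n
  have h10 := card_T n
  have h11 : kc (Kd.b 0) M + kc (Kd.b 1) M + kc (Kd.b 2) M
      = kc (Kd.b t₀) M + kc (Kd.b (t₀ + 1)) M + kc (Kd.b (t₀ + 2)) M := by
    fin_cases t₀
    · rfl
    · show kc (Kd.b 0) M + kc (Kd.b 1) M + kc (Kd.b 2) M
        = kc (Kd.b 1) M + kc (Kd.b 2) M + kc (Kd.b 0) M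
      ring
    · show kc (Kd.b 0) M + kc (Kd.b 1) M + kc (Kd.b 2) M
        = kc (Kd.b 2) M + kc (Kd.b 0) M + kc (Kd.b 1) M
      ring
  refine ⟨q.2, p.1, p.2, by omega, h5.symm, h6.symm, h7.symm, hP, ?_⟩
  rw [← h9] at h10
  have h12 : (n + 1) * (n + 2) = n ^ 2 + 3 * n + 2 := by ring
  rw [h12] at h10
  omega

theorem count_rat (t₀ : Fin 3) {n : ℕ} (hn : 1 ≤ n) (c j d : ℕ) (h : c + j + d = n) :
    (({M | IsTiling (NoBone t₀) (benzel ((n : ℤ) + 2) (2 * n + 1)) M ∧ lefts M = c + j ∧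
      bones (t₀ + 1) M = j + d ∧ bones (t₀ + 2) M = 2 * d + c}.ncard : ℕ) : ℚ) = NN c j d := by
  rw [ncard_eq, coeff_eq t₀ hn]
  rw [Finset.sum_eq_single (j + d, c), Finset.sum_eq_single (j, d)]
  · simp
  · rintro ⟨j', d'⟩ hp hne
    rw [Finset.HasAntidiagonal.mem_antidiagonal] at hp
    apply if_neg
    rintro ⟨h1, h2, h3⟩
    apply hne
    simp only at h1 h2 h3 hp ⊢
    rw [Prod.mk.injEq]
    omega
  · intro h1
    exact absurd (Finset.HasAntidiagonal.mem_antidiagonal.2 (by simp only)) h1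
  · rintro ⟨a, c'⟩ hq hne
    rw [Finset.HasAntidiagonal.mem_antidiagonal] at hq
    apply Finset.sum_eq_zero
    rintro ⟨j', d'⟩ hp
    rw [Finset.HasAntidiagonal.mem_antidiagonal] at hp
    apply if_neg
    rintro ⟨h1, h2, h3⟩
    apply hne
    simp only at h1 h2 h3 hp hq ⊢
    rw [Prod.mk.injEq]
    omega
  · intro h1
    exact absurd (Finset.HasAntidiagonal.mem_antidiagonal.2 (by simp only; omega)) h1

theorem count_closed (t₀ : Fin 3) {n : ℕ} (hn : 1 ≤ n) (c j d : ℕ) (h : c + j + d = n) :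
    {M | IsTiling (NoBone t₀) (benzel ((n : ℤ) + 2) (2 * n + 1)) M ∧ lefts M = c + j ∧
      bones (t₀ + 1) M = j + d ∧ bones (t₀ + 2) M = 2 * d + c}.ncard
      * (j ! * d ! * (c + d + 1)!)
      = (2 * d + c + j - 1)! * (c * (c + d + 1) + (c + 1) * j) := by
  have h1 := NN_closed c j d n h hn
  rw [← count_rat t₀ hn c j d h] at h1
  exact_mod_cast h1

end Pool.Agent.KS6_50.BZ
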