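import Pool.Agent.KS6_50.BZ.Expand2

set_option autoImplicit false

/-!
Schroeder paths with given numbers of diagonal steps and of final vertical steps.
-/

namespace Pool.Agent.KS6_50.BZ

open Finset Pool.Agent.R730.Bz

/-- the list `L` of steps ends with exactly `c` vertical steps: its last `c` steps are `(0, 1)` and
the step before them, if there is one, is not `(0, 1)` -/
def FinalRun (c : ℕ) (L : List (ℤ × ℤ)) : Prop :=
  ∃ L' : List (ℤ × ℤ), L = L' ++ List.replicate c (0, 1) ∧ ∀ L'' : List (ℤ × ℤ), L' ≠ L'' ++ [(0, 1)]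

/-- paths with `j` diagonal steps -/
def SJ (e : ℤ × ℤ) (j : ℕ) : Set (List (ℤ × ℤ)) := {L | L ∈ SP e ∧ L.count (1, 1) = j}

lemma mem_SP_concat {L : List (ℤ × ℤ)} {s e : ℤ × ℤ} : L ++ [s] ∈ SP e ↔
    (s = (1,0) ∨ s = (0,1) ∨ s = (1,1)) ∧ e.2 ≤ e.1 ∧ L ∈ SP (e - s) := by
  constructor
  · rintro ⟨h1, h2, h3⟩
    refine ⟨h1 s (by simp), ?_, fun t ht => h1 t (by simp [ht]), ?_, fun P hP => h3 P ?_⟩
    · have := h3 (L ++ [s]) (List.prefix_refl _)
      rwa [h2] at this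
    · rw [List.sum_append, List.sum_singleton] at h2
      rw [← h2, add_sub_cancel_right]
    · exact hP.trans (List.prefix_append _ _)
  · rintro ⟨hs, h, h1, h2, h3⟩
    have hsum : (L ++ [s]).sum = e := by
      rw [List.sum_append, List.sum_singleton, h2, sub_add_cancel]
    refine ⟨?_, hsum, ?_⟩
    · intro t ht
      rw [List.mem_append, List.mem_singleton] at ht
      rcases ht with ht | ht
      · exact h1 t ht
      · rw [ht]; exact hs
    · intro P hP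
      rw [List.prefix_concat_iff] at hP
      rcases hP with rfl | hP
      · rw [hsum]; exact h
      · exact h3 P hP

lemma SJ_step {e : ℤ × ℤ} (h0 : e ≠ 0) (h : e.2 ≤ e.1) (j : ℕ) :
    SJ e j = ((fun L => L ++ [((1 : ℤ), (0 : ℤ))]) '' SJ (e - (1, 0)) j) ∪
      ((fun L => L ++ [((0 : ℤ), (1 : ℤ))]) '' SJ (e - (0, 1)) j ∪
      (fun L => L ++ [((1 : ℤ), (1 : ℤ))]) '' {L | L ∈ SP (e - (1, 1)) ∧ L.count (1, 1) + 1 = j}) := by
  ext L
  constructor
  · rintro ⟨hL, hc⟩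
    rcases List.eq_nil_or_concat L with rfl | ⟨L', s, rfl⟩
    · exact absurd hL.2.1.symm (by simpa using h0)
    · rw [List.concat_eq_append] at *
      obtain ⟨hs, -, hL'⟩ := mem_SP_concat.1 hL
      rcases hs with rfl | rfl | rfl
      · left; exact ⟨L', ⟨hL', by simpa using hc⟩, rfl⟩
      · right; left; exact ⟨L', ⟨hL', by simpa using hc⟩, rfl⟩
      · right; right; exact ⟨L', ⟨hL', by simpa using hc⟩, rfl⟩
  · rintro (⟨L', ⟨hL', hc⟩, rfl⟩ | ⟨L', ⟨hL', hc⟩, rfl⟩ | ⟨L', ⟨hL', hc⟩, rfl⟩)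
    · exact ⟨mem_SP_concat.2 ⟨by simp, h, hL'⟩, by simpa using hc⟩
    · exact ⟨mem_SP_concat.2 ⟨by simp, h, hL'⟩, by simpa using hc⟩
    · exact ⟨mem_SP_concat.2 ⟨by simp, h, hL'⟩, by simpa using hc⟩

/-- numbers of paths -/
noncomputable def W (j a b : ℕ) : ℚ := if j ≤ a then rr j (a - j) b else 0

/-- `W` with first index lowered by one -/
noncomputable def W1 : ℕ → ℕ → ℕ → ℚ
  | 0, _, _ => 0
  | j + 1, a, b => W j a b

lemma W_zero (j b : ℕ) : W j 0 b = if j = 0 then 1 else 0 := by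
  unfold W
  rcases j with _ | j
  · simp [rr_zero]
  · simp

lemma rd_W (j a u : ℕ) (h : j ≤ a + 1) : rd j (a + 1 - j) u = W j a u := by
  unfold W
  rcases Nat.lt_or_ge a j with h1 | h1
  · rw [if_neg (by omega), show a + 1 - j = 0 by omega]; rfl
  · rw [if_pos h1, show a + 1 - j = (a - j) + 1 by omega]; rfl

lemma rj_W (j a u : ℕ) (h : j ≤ a + 1) : rj j (a + 1 - j) u = W1 j a u := by
  rcases j with _ | j
  · rfl
  · show rr j (a + 1 - (j + 1)) u = W j a u
    unfold W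
    rw [if_pos (by omega), show a + 1 - (j + 1) = a - j by omega]

lemma W_base (j a : ℕ) : W j (a + 1) 0 = W j a 1 + W1 j a 0 := by
  by_cases h : j ≤ a + 1
  · rw [← rd_W j a 1 h, ← rj_W j a 0 h, ← rr_base _ _ (by omega)]
    unfold W
    rw [if_pos h]
  · rcases j with _ | j
    · omega
    · show W (j + 1) (a + 1) 0 = W (j + 1) a 1 + W j a 0
      unfold W
      rw [if_neg h, if_neg (by omega), if_neg (by omega)]
      ring

lemma W_succ (j a b : ℕ) : W j (a + 1) (b + 1) = W j (a + 1) b + W j a (b + 2) + W1 j a (b + 1) := by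
  by_cases h : j ≤ a + 1
  · rw [← rd_W j a (b + 2) h, ← rj_W j a (b + 1) h]
    unfold W
    rw [if_pos h, if_pos h, rr_succ]
  · rcases j with _ | j
    · omega
    · show W (j + 1) (a + 1) (b + 1) = W (j + 1) (a + 1) b + W (j + 1) a (b + 2) + W j a (b + 1)
      unfold W
      rw [if_neg h, if_neg h, if_neg (by omega), if_neg (by omega)]
      ring

lemma SJ_neg {e : ℤ × ℤ} (h : e.2 < 0) (j : ℕ) : SJ e j = ∅ := by
  unfold SJ
  rw [SP_neg h]
  simp

lemma SJ_above {e : ℤ × ℤ} (h : e.1 < e.2) (j : ℕ) : SJ e j = ∅ := by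
  unfold SJ
  rw [SP_above h]
  simp

lemma SJ_finite (a b j : ℕ) : (SJ ((a : ℤ) + b, (a : ℤ)) j).Finite :=
  (SP_card a b).1.subset (fun _ h => h.1)

lemma SJ1_finite (a b j : ℕ) :
    {L | L ∈ SP ((a : ℤ) + b, (a : ℤ)) ∧ L.count (1, 1) + 1 = j}.Finite :=
  (SP_card a b).1.subset (fun _ h => h.1)

lemma SJ1_eq (e : ℤ × ℤ) (j : ℕ) : {L | L ∈ SP e ∧ L.count (1, 1) + 1 = j + 1} = SJ e j := by
  ext L
  simp [SJ]

lemma SJ1_zero (e : ℤ × ℤ) : {L | L ∈ SP e ∧ L.count (1, 1) + 1 = 0} = ∅ := by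
  ext L
  simp

lemma SJ1_card (a b : ℕ) (h : ∀ j, ((SJ ((a : ℤ) + b, (a : ℤ)) j).ncard : ℚ) = W j a b) (j : ℕ) :
    (({L | L ∈ SP ((a : ℤ) + b, (a : ℤ)) ∧ L.count (1, 1) + 1 = j}.ncard : ℕ) : ℚ) = W1 j a b := by
  rcases j with _ | j
  · rw [SJ1_zero]; simp [W1]
  · rw [SJ1_eq, h]; rfl

theorem SJ_card (a b : ℕ) : ∀ j, ((SJ ((a : ℤ) + b, (a : ℤ)) j).ncard : ℚ) = W j a b := by
  induction a generalizing b with
  | zero =>
    induction b with
    | zero =>
      intro j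
      have : (((0 : ℕ) : ℤ) + ((0 : ℕ) : ℤ), ((0 : ℕ) : ℤ)) = 0 := by simp
      rw [this, W_zero]
      unfold SJ
      rw [SP_zero]
      rcases j with _ | j
      · have : {L : List (ℤ × ℤ) | L ∈ ({[]} : Set (List (ℤ × ℤ))) ∧ L.count (1, 1) = 0} = {[]} := by
          ext L
          simp only [Set.mem_ofPred_eq, Set.mem_singleton_iff]
          constructor
          · exact fun h => h.1
          · rintro rfl; simp
        rw [this]; simp
      · have : {L : List (ℤ × ℤ) | L ∈ ({[]} : Set (List (ℤ × ℤ))) ∧ L.count (1, 1) = j + 1} = ∅ := by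
          ext L
          simp only [Set.mem_ofPred_eq, Set.mem_singleton_iff, Set.mem_empty_iff_false, iff_false]
          rintro ⟨rfl, h⟩
          simp at h
        rw [this]; simp
    | succ b ih =>
      intro j
      rw [SJ_step (by intro h; have := congrArg Prod.fst h; simp at this; omega) (by simp; omega)]
      have e1 : ((((0 : ℕ) : ℤ) + ((b + 1 : ℕ) : ℤ), ((0 : ℕ) : ℤ)) - (1, 0) : ℤ × ℤ) =
        (((0 : ℕ) : ℤ) + (b : ℤ), ((0 : ℕ) : ℤ)) := by
        ext <;> simp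
      have e2 : SJ ((((0 : ℕ) : ℤ) + ((b + 1 : ℕ) : ℤ), ((0 : ℕ) : ℤ)) - (0, 1) : ℤ × ℤ) j = ∅ :=
        SJ_neg (by simp) j
      have e3 : {L | L ∈ SP ((((0 : ℕ) : ℤ) + ((b + 1 : ℕ) : ℤ), ((0 : ℕ) : ℤ)) - (1, 1) : ℤ × ℤ)
          ∧ L.count (1, 1) + 1 = j} = ∅ := by
        rw [SP_neg (by simp)]; simp
      rw [e1, e2, e3, (ncard_step (SJ_finite 0 b j) Set.finite_empty Set.finite_empty).2, W_zero,
        ← W_zero j b, ← ih j]
      simp
  | succ a iha =>
    induction b with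
    | zero =>
      intro j
      rw [SJ_step (by intro h; have := congrArg Prod.snd h; simp at this; omega) (by simp)]
      have e1 : SJ ((((a + 1 : ℕ) : ℤ) + ((0 : ℕ) : ℤ), ((a + 1 : ℕ) : ℤ)) - (1, 0) : ℤ × ℤ) j = ∅ :=
        SJ_above (by simp) j
      have e2 : ((((a + 1 : ℕ) : ℤ) + ((0 : ℕ) : ℤ), ((a + 1 : ℕ) : ℤ)) - (0, 1) : ℤ × ℤ) =
        ((a : ℤ) + ((1 : ℕ) : ℤ), (a : ℤ)) := by
        ext <;> simp
      have e3 : ((((a + 1 : ℕ) : ℤ) + ((0 : ℕ) : ℤ), ((a + 1 : ℕ) : ℤ)) - (1, 1) : ℤ × ℤ) =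
        ((a : ℤ) + ((0 : ℕ) : ℤ), (a : ℤ)) := by
        ext <;> simp
      rw [e1, e2, e3, (ncard_step Set.finite_empty (SJ_finite a 1 j) (SJ1_finite a 0 j)).2, W_base,
        ← iha 1 j, ← SJ1_card a 0 (iha 0) j]
      push_cast
      simp
    | succ b ihb =>
      intro j
      rw [SJ_step (by intro h; have := congrArg Prod.snd h; simp at this; omega) (by simp; omega)]
      have e1 : ((((a + 1 : ℕ) : ℤ) + ((b + 1 : ℕ) : ℤ), ((a + 1 : ℕ) : ℤ)) - (1, 0) : ℤ × ℤ) =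
        (((a + 1 : ℕ) : ℤ) + (b : ℤ), ((a + 1 : ℕ) : ℤ)) := by
        ext <;> simp
        ring
      have e2 : ((((a + 1 : ℕ) : ℤ) + ((b + 1 : ℕ) : ℤ), ((a + 1 : ℕ) : ℤ)) - (0, 1) : ℤ × ℤ) =
        ((a : ℤ) + ((b + 2 : ℕ) : ℤ), (a : ℤ)) := by
        ext <;> simp
        ring
      have e3 : ((((a + 1 : ℕ) : ℤ) + ((b + 1 : ℕ) : ℤ), ((a + 1 : ℕ) : ℤ)) - (1, 1) : ℤ × ℤ) =
        ((a : ℤ) + ((b + 1 : ℕ) : ℤ), (a : ℤ)) := by
        ext <;> simp
        ring
      rw [e1, e2, e3, (ncard_step (SJ_finite (a + 1) b j) (SJ_finite a (b + 2) j)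
        (SJ1_finite a (b + 1) j)).2, W_succ, ← iha (b + 2) j, ← SJ1_card a (b + 1) (iha (b + 1)) j,
        ← ihb j]
      push_cast
      ring

/-- appending vertical steps -/
lemma mem_SP_replicate (c : ℕ) {L : List (ℤ × ℤ)} {x y : ℤ} (h : y ≤ x) :
    L ++ List.replicate c (0, 1) ∈ SP (x, y) ↔ L ∈ SP (x, y - c) := by
  induction c generalizing y with
  | zero => simp
  | succ c ih =>
    rw [List.replicate_succ', ← List.append_assoc, mem_SP_concat]
    have e : ((x, y) - (0, 1) : ℤ × ℤ) = (x, y - 1) := by simp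
    rw [e, ih (by omega), show y - 1 - (c : ℤ) = y - ((c + 1 : ℕ) : ℤ) by push_cast; ring]
    simp [h]

/-- paths to `(n, n)` with `j` diagonal steps which end with exactly `c` vertical steps -/
theorem paths_card (c j d n : ℕ) (h : c + j + d = n) :
    (({L | L ∈ SchPath n ∧ L.count (1, 1) = j ∧ FinalRun c L}.ncard : ℕ) : ℚ) = NN c j d := by
  have key : {L | L ∈ SchPath n ∧ L.count (1, 1) = j ∧ FinalRun c L}
      = (fun L : List (ℤ × ℤ) => L ++ List.replicate c ((0 : ℤ), (1 : ℤ))) ''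
        (SJ (((j + d : ℕ) : ℤ) + c, ((j + d : ℕ) : ℤ)) j \
          (fun L : List (ℤ × ℤ) => L ++ [((0 : ℤ), (1 : ℤ))]) ''
            SJ ((((j + d : ℕ) : ℤ) + c, ((j + d : ℕ) : ℤ)) - (0, 1)) j) := by
    have hc : ∀ k : ℕ, List.count ((1 : ℤ), (1 : ℤ)) (List.replicate k ((0 : ℤ), (1 : ℤ))) = 0 := by
      intro k
      rw [List.count_replicate]
      simp
    have hn : (n : ℤ) - c = ((j + d : ℕ) : ℤ) := by push_cast; omega
    have hn' : (n : ℤ) = ((j + d : ℕ) : ℤ) + c := by push_cast; omega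
    ext L
    constructor
    · rintro ⟨h1, h2, L', rfl, h3⟩
      refine ⟨L', ⟨⟨?_, ?_⟩, ?_⟩, rfl⟩
      · rw [SchPath_eq, show (n : ℤ) + ((0 : ℕ) : ℤ) = n by simp, mem_SP_replicate c (le_refl _),
          hn, hn'] at h1
        exact h1
      · rw [List.count_append, hc, add_zero] at h2
        exact h2
      · rintro ⟨L'', -, h4⟩
        exact h3 L'' h4.symm
    · rintro ⟨L', ⟨⟨h1, h2⟩, h3⟩, rfl⟩
      refine ⟨?_, ?_, L', rfl, ?_⟩
      · rw [SchPath_eq, show (n : ℤ) + ((0 : ℕ) : ℤ) = n by simp, mem_SP_replicate c (le_refl _),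
          hn, hn']
        exact h1
      · show List.count (1, 1) (L' ++ _) = j
        rw [List.count_append, hc, add_zero]
        exact h2
      · rintro L'' rfl
        apply h3
        refine ⟨L'', ⟨(mem_SP_concat.1 h1).2.2, ?_⟩, rfl⟩
        simpa using h2
  have hsub : (fun L : List (ℤ × ℤ) => L ++ [((0 : ℤ), (1 : ℤ))]) ''
      SJ ((((j + d : ℕ) : ℤ) + c, ((j + d : ℕ) : ℤ)) - (0, 1)) j
      ⊆ SJ (((j + d : ℕ) : ℤ) + c, ((j + d : ℕ) : ℤ)) j := by
    rintro _ ⟨L, ⟨h1, h2⟩, rfl⟩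
    exact ⟨mem_SP_concat.2 ⟨by simp, by simp, h1⟩, by simpa using h2⟩
  have inj : ∀ s : List (ℤ × ℤ), Function.Injective (fun L : List (ℤ × ℤ) => L ++ s) := by
    intro s L L' h
    exact List.append_cancel_right h
  have hfin : (SJ (((j + d : ℕ) : ℤ) + c, ((j + d : ℕ) : ℤ)) j).Finite := SJ_finite (j + d) c j
  rw [key, Set.ncard_image_of_injective _ (inj _), Set.cast_ncard_sdiff hsub hfin,
    Set.ncard_image_of_injective _ (inj _), SJ_card (j + d) c j]
  unfold NN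
  congr 1
  · unfold W
    rw [if_pos (by omega), show j + d - j = d by omega]
  · rcases d with _ | d
    · rw [show rd j 0 (c + 1) = 0 from rfl]
      rcases j with _ | j
      · rw [SJ_neg (by simp)]; simp
      · have e : ((((j + 1 + 0 : ℕ) : ℤ) + c, ((j + 1 + 0 : ℕ) : ℤ)) - (0, 1) : ℤ × ℤ)
            = ((j : ℤ) + ((c + 1 : ℕ) : ℤ), (j : ℤ)) := by
          ext <;> simp
          ring
        rw [e, SJ_card j (c + 1) (j + 1)]
        unfold W
        rw [if_neg (by omega)]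
    · have e : ((((j + (d + 1) : ℕ) : ℤ) + c, ((j + (d + 1) : ℕ) : ℤ)) - (0, 1) : ℤ × ℤ)
          = (((j + d : ℕ) : ℤ) + ((c + 1 : ℕ) : ℤ), ((j + d : ℕ) : ℤ)) := by
        ext <;> simp <;> ring
      rw [e, SJ_card (j + d) (c + 1) j]
      unfold W
      rw [if_pos (by omega), show j + d - j = d by omega]
      rfl

end Pool.Agent.KS6_50.BZ
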